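import Mathlib
import Pool.Agent.TH881.RK.DefsL

/-! Two sets of classes in general position (job 4393 of helper881). -/

set_option autoImplicit false

namespace Pool.Agent.TH240.J4393

open Finset Filter Topology
open Pool.Agent.TH881
open Pool.Agent.TH881.RG
open Pool.Agent.TH881.RQ
open Pool.Agent.TH881.RK
open Pool.Agent.H373R2.T7

/-- averaging over a sharply transitive family of maps -/
lemma avg {α G : Type} [DecidableEq α] [Fintype G] [Nonempty G] (B₁ B₂ : Finset α)
    (f : G → α → α) (hinj : ∀ g, Function.Injective (f g))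
    (hone : ∀ a ∈ B₁, ∀ b ∈ B₂, ∀ g g', f g b = a → f g' b = a → g = g') :
    ∃ g : G, (B₁ ∩ B₂.image (f g)).card * Fintype.card G ≤ B₁.card * B₂.card := by
  classical
  have h1 : ∑ g : G, (B₁ ∩ B₂.image (f g)).card ≤ B₁.card * B₂.card := by
    have h2 : ∀ g : G, (B₁ ∩ B₂.image (f g)).card =
        ∑ p ∈ B₁ ×ˢ B₂, if f g p.2 = p.1 then 1 else 0 := by
      intro g
      rw [← card_filter]
      symm
      apply card_bij (fun p _ => p.1)
      · rintro ⟨a, b⟩ hp
        simp only [mem_filter, mem_product] at hp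
        simp only [mem_inter, mem_image]
        exact ⟨hp.1.1, b, hp.1.2, hp.2⟩
      · rintro ⟨a, b⟩ hp ⟨a', b'⟩ hp' haa
        simp only [mem_filter, mem_product] at hp hp' haa
        subst haa
        have : f g b = f g b' := by rw [hp.2, hp'.2]
        rw [hinj g this]
      · intro a ha
        simp only [mem_inter, mem_image] at ha
        obtain ⟨ha, b, hb, hba⟩ := ha
        exact ⟨(a, b), by simp only [mem_filter, mem_product]; exact ⟨⟨ha, hb⟩, hba⟩, rfl⟩
    simp only [h2]
    rw [sum_comm, ← card_product, card_eq_sum_ones]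
    apply sum_le_sum
    rintro ⟨a, b⟩ hp
    rw [mem_product] at hp
    rw [← card_filter, card_le_one]
    intro g hg g' hg'
    simp only [mem_filter, mem_univ, true_and] at hg hg'
    exact hone a hp.1 b hp.2 g g' hg hg'
  by_contra hcon
  push Not at hcon
  have h3 : ∑ g : G, B₁.card * B₂.card < ∑ g : G, (B₁ ∩ B₂.image (f g)).card * Fintype.card G :=
    sum_lt_sum_of_nonempty univ_nonempty fun g _ => hcon g
  rw [sum_const, card_univ, smul_eq_mul, ← sum_mul, mul_comm (Fintype.card G)] at h3
  have h4 := Nat.lt_of_mul_lt_mul_right h3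
  omega

/-- the construction for a sharply transitive family of symmetries -/
lemma core {m : ℕ} (w : ℕ) (A B₁ B₂ : Finset (ZMod (Wp w))) (h1 : B₁ ⊆ A) (h2 : B₂ ⊆ A)
    {G : Type} [Fintype G] [Nonempty G] (hG : Fintype.card G = A.card)
    (f : G → ZMod (Wp w) → ZMod (Wp w)) (hinj : ∀ g, Function.Injective (f g))
    (hA : ∀ g, ∀ a ∈ A, f g a ∈ A)
    (hone : ∀ a ∈ A, ∀ b ∈ A, ∀ g g', f g b = a → f g' b = a → g = g')
    (F : G → (Fin m → ZMod (Wp w)) → (Fin m → ZMod (Wp w))) (hF : ∀ g, Function.Injective (F g))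
    (hgk : ∀ g t a, gk t (f g a) → gk (F g t) a) :
    ∃ B ⊆ A, (B₁.card : ℝ) + B₂.card - (B₁.card * B₂.card : ℝ) / A.card ≤ B.card ∧
      (sumk m w B).card ≤ (sumk m w B₁).card + (sumk m w B₂).card := by
  classical
  obtain ⟨g, hg⟩ := avg B₁ B₂ f hinj fun a ha b hb => hone a (h1 ha) b (h2 hb)
  refine ⟨B₁ ∪ B₂.image (f g), ?_, ?_, ?_⟩
  · apply union_subset h1
    intro x hx
    rw [mem_image] at hx
    obtain ⟨b, hb, rfl⟩ := hx
    exact hA g b (h2 hb)
  · have h3 := card_union_add_card_inter B₁ (B₂.image (f g))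
    rw [card_image_of_injective _ (hinj g)] at h3
    have hpos : (0 : ℝ) < A.card := by
      rw [← hG]
      exact_mod_cast Fintype.card_pos
    have h4 : ((B₁ ∩ B₂.image (f g)).card : ℝ) ≤ (B₁.card * B₂.card : ℝ) / A.card := by
      rw [le_div_iff₀ hpos, ← hG]
      exact_mod_cast hg
    have h5 : ((B₁ ∪ B₂.image (f g)).card : ℝ) + (B₁ ∩ B₂.image (f g)).card =
        B₁.card + B₂.card := by exact_mod_cast h3
    linarith
  · have h3 : (sumk m w (B₂.image (f g))).card ≤ (sumk m w B₂).card := by
      apply card_le_card_of_injOn (F g)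
      · intro t ht
        rw [mem_coe] at ht ⊢
        unfold sumk at ht ⊢
        rw [mem_filter] at ht ⊢
        obtain ⟨-, a, ha, hta⟩ := ht
        rw [mem_image] at ha
        obtain ⟨b, hb, rfl⟩ := ha
        exact ⟨mem_univ _, b, hb, hgk g t b hta⟩
      · exact (hF g).injOn
    have h4 : sumk m w (B₁ ∪ B₂.image (f g)) ⊆ sumk m w B₁ ∪ sumk m w (B₂.image (f g)) := by
      intro t ht
      unfold sumk at ht ⊢
      rw [mem_filter] at ht
      obtain ⟨-, a, ha, hta⟩ := ht
      rw [mem_union, mem_filter, mem_filter]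
      rw [mem_union] at ha
      rcases ha with ha | ha
      · exact Or.inl ⟨mem_univ _, a, ha, hta⟩
      · exact Or.inr ⟨mem_univ _, a, ha, hta⟩
    exact (card_le_card h4).trans ((card_union_le _ _).trans (by omega))

theorem stShift_in (pr : Bool) (m : ℕ) : StShift pr m := by
  classical
  intro w B₁ h1 B₂ h2
  cases pr with
  | false =>
    apply core w (AA false w) B₁ B₂ h1 h2 (G := ZMod (Wp w)) (by
      unfold AA
      rw [← card_univ]
      congr 1
      ext a
      simp) (fun g a => a + g) (fun g a b h => add_right_cancel h) (fun g a _ => by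
      unfold AA
      rw [mem_filter]
      exact ⟨mem_univ _, by simp⟩) (fun a _ b _ g g' h h' => add_left_cancel (h.trans h'.symm))
      (fun g t j => t j + g) (fun g t t' h => by
        funext j
        exact add_right_cancel (congrFun h j)) (fun g t a h j => by
        have := h j
        rw [add_assoc, add_comm g a]
        exact this)
  | true =>
    have hmem : ∀ a : ZMod (Wp w), a ∈ AA true w ↔ IsUnit a := by
      intro a
      unfold AA
      rw [mem_filter]
      simp
    apply core w (AA true w) B₁ B₂ h1 h2 (G := (ZMod (Wp w))ˣ) (by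
      rw [← Finset.card_univ]
      apply card_bij (fun (u : (ZMod (Wp w))ˣ) _ => (u : ZMod (Wp w)))
      · intro u _
        rw [hmem]
        exact u.isUnit
      · intro u _ v _ h
        exact Units.ext h
      · intro a ha
        rw [hmem] at ha
        exact ⟨ha.unit, mem_univ _, rfl⟩) (fun g a => (g : ZMod (Wp w)) * a)
      (fun g a b h => (Units.mul_right_inj g).1 h) (fun g a ha => by
        rw [hmem] at ha ⊢
        exact g.isUnit.mul ha) (fun a _ b hb g g' h h' => by
        rw [hmem] at hb
        have h3 : (g : ZMod (Wp w)) * b = g' * b := h.trans h'.symm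
        exact Units.ext (hb.mul_right_cancel h3))
      (fun g t j => ((g⁻¹ : (ZMod (Wp w))ˣ) : ZMod (Wp w)) * t j) (fun g t t' h => by
        funext j
        exact (Units.mul_right_inj g⁻¹).1 (congrFun h j)) (fun g t a h j => by
        have h3 := h j
        have h4 : ((g⁻¹ : (ZMod (Wp w))ˣ) : ZMod (Wp w)) * t j + a =
            ((g⁻¹ : (ZMod (Wp w))ˣ) : ZMod (Wp w)) * (t j + (g : ZMod (Wp w)) * a) := by
          rw [mul_add, Units.inv_mul_cancel_left]
        show IsUnit (((g⁻¹ : (ZMod (Wp w))ˣ) : ZMod (Wp w)) * t j + a)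
        rw [h4]
        exact (g⁻¹).isUnit.mul h3)

end Pool.Agent.TH240.J4393
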