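import Mathlib

/-!
Words in a conjugation invariant subset of a group none of whose nonempty products is trivial:
words over a finite alphabet with the same product form an antichain for scattered subwords, so by
Higman's lemma there are finitely many of them.
-/

namespace Pool.Agent.TH240.Hig

variable {M : Type*} [Group M]

theorem insert_prod (P : M → Prop) (hP : ∀ f t, P t → P (f * t * f⁻¹)) {w w' : List M}
    (h : w.Sublist w') (hw : ∀ t ∈ w', P t) :
    ∃ u : List M, (∀ t ∈ u, P t) ∧ w'.prod = u.prod * w.prod ∧ w'.length = u.length + w.length := by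
  induction h with
  | slnil => exact ⟨[], by simp, by simp, by simp⟩
  | @cons l₁ l₂ a h ih =>
    obtain ⟨u, h1, h2, h3⟩ := ih fun t ht => hw t (List.mem_cons_of_mem _ ht)
    refine ⟨a :: u, ?_, ?_, ?_⟩
    · intro t ht
      rcases List.mem_cons.1 ht with rfl | ht
      · exact hw _ List.mem_cons_self
      · exact h1 t ht
    · rw [List.prod_cons, List.prod_cons, h2, mul_assoc]
    · simp only [List.length_cons]
      omega
  | @cons_cons l₁ l₂ a h ih =>
    obtain ⟨u, h1, h2, h3⟩ := ih fun t ht => hw t (List.mem_cons_of_mem _ ht)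
    refine ⟨u.map fun t => a * t * a⁻¹, ?_, ?_, ?_⟩
    · intro t ht
      obtain ⟨s, hs, rfl⟩ := List.mem_map.1 ht
      exact hP a s (h1 s hs)
    · have e : (u.map fun t => a * t * a⁻¹).prod = a * u.prod * a⁻¹ := by
        have := (map_list_prod (MulAut.conj a) u)
        simp only [MulAut.conj_apply] at this
        rw [this]
        rfl
      rw [List.prod_cons, List.prod_cons, h2, e]
      group
    · simp only [List.length_cons, List.length_map]
      omega

theorem eq_of_sublist (P : M → Prop) (hP : ∀ f t, P t → P (f * t * f⁻¹))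
    (hpos : ∀ u : List M, u ≠ [] → (∀ t ∈ u, P t) → u.prod ≠ 1) {w w' : List M}
    (h : w.Sublist w') (hw : ∀ t ∈ w', P t) (he : w.prod = w'.prod) : w = w' := by
  obtain ⟨u, h1, h2, h3⟩ := insert_prod P hP h hw
  have hu : u = [] := by
    by_contra hne
    exact hpos u hne h1 (by rw [he] at h2; exact (mul_eq_right.1 h2.symm))
  subst hu
  exact h.eq_of_length (by simp at h3; omega)

theorem finite_words (P : M → Prop) (hP : ∀ f t, P t → P (f * t * f⁻¹))
    (hpos : ∀ u : List M, u ≠ [] → (∀ t ∈ u, P t) → u.prod ≠ 1) (Φ : Set M) (hΦ : Φ.Finite)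
    (z : M) : {w : List M | (∀ t ∈ w, t ∈ Φ ∧ P t) ∧ w.prod = z}.Finite := by
  by_contra hinf
  have hinf : {w : List M | (∀ t ∈ w, t ∈ Φ ∧ P t) ∧ w.prod = z}.Infinite := hinf
  have hpwo : {l : List M | ∀ x, x ∈ l → x ∈ Φ}.PartiallyWellOrderedOn
      (List.SublistForall₂ (· = ·)) :=
    Set.PartiallyWellOrderedOn.partiallyWellOrderedOn_sublistForall₂ (· = ·)
      (hΦ.partiallyWellOrderedOn)
  let e := hinf.natEmbedding
  obtain ⟨m, n, hmn, h⟩ := hpwo (fun n => ⟨(e n : List M), fun x hx => ((e n).2.1 x hx).1⟩)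
  obtain ⟨l, hl, hs⟩ := List.sublistForall₂_iff.1 h
  rw [List.forall₂_eq_eq_eq] at hl
  subst hl
  have := eq_of_sublist P hP hpos hs (fun t ht => ((e n).2.1 t ht).2)
    ((e m).2.2.trans (e n).2.2.symm)
  exact absurd (e.injective (Subtype.ext this)) (ne_of_lt hmn)

end Pool.Agent.TH240.Hig
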